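import Pool.Agent.Lib.MP_6d445e_gt.Iface2

set_option autoImplicit false

/-!
# ARI2: the contradiction in case 2
-/

namespace Pool.Agent.Lib.MP_6d445e_gt.H75

open Pool.Agent.Lib.MP_6d445e_gt

theorem ari2_le_mx (f : ℕ → ℕ) {i n : ℕ} (h : i ≤ n) : f i ≤ mx f n :=
  Finset.le_sup (f := f) (Finset.mem_range.2 (by omega))

theorem ari2_nx_spec {S : Set ℕ} (hS : S.Infinite) (q : ℕ) : nx S q ∈ S ∧ q ≤ nx S q := by
  have hne : {n | n ∈ S ∧ q ≤ n}.Nonempty := by
    obtain ⟨n, hn, hqn⟩ := hS.exists_gt q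
    exact ⟨n, hn, hqn.le⟩
  exact Nat.sInf_mem hne

theorem ari2 (h0 : Ari0Statement) : Ari2Statement := by
  intro S f be en Ψ ψ xx xi vv vi y y' sl q k hSinf _ hΨ hsl hvi hvv hev hq hS hsl2
  obtain ⟨-, ⟨hJmono, hJunb⟩, -, hJ⟩ := h0 f en Ψ
  obtain ⟨m1, hm1⟩ := hev
  obtain ⟨m2, hm2⟩ := hsl2
  have hb : ∀ a, nx S (q a) ∈ S ∧ q a ≤ nx S (q a) := fun a => ari2_nx_spec hSinf (q a)
  -- `q` grows
  have hqa : ∀ a, a ≤ q a := by
    intro a
    induction a with
    | zero => exact Nat.zero_le _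
    | succ a ih =>
      have h1 := (hq a).1
      have h2 := (hq a).2.1
      omega
  -- properties of `k a`
  have hk : ∀ a, nx S (q a) < k a ∧ xi (ψ (nx S (q a)) + 2) < J2 f en Ψ (k a) ∧
      ψ (nx S (q a)) < J2 f en Ψ (k a) ∧
      mx (fun k => en (Nat.pair (xx (be (Nat.pair (nx S (q a)) k))) (Nat.pair k (nx S (q a)))))
      (mx f (max (be (Nat.pair (ψ (nx S (q a))) (xi (ψ (nx S (q a)) + 2)))) (nx S (q a) + 2)))
        < k a := by
    intro a
    have hne : {K | nx S (q a) < K ∧ xi (ψ (nx S (q a)) + 2) < J2 f en Ψ K ∧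
      ψ (nx S (q a)) < J2 f en Ψ K ∧
      mx (fun k => en (Nat.pair (xx (be (Nat.pair (nx S (q a)) k))) (Nat.pair k (nx S (q a)))))
      (mx f (max (be (Nat.pair (ψ (nx S (q a))) (xi (ψ (nx S (q a)) + 2)))) (nx S (q a) + 2)))
        < K}.Nonempty := by
      obtain ⟨K1, hK1⟩ := hJunb (xi (ψ (nx S (q a)) + 2) + ψ (nx S (q a)) + 1)
      set M := mx (fun k => en (Nat.pair (xx (be (Nat.pair (nx S (q a)) k)))
        (Nat.pair k (nx S (q a)))))
        (mx f (max (be (Nat.pair (ψ (nx S (q a))) (xi (ψ (nx S (q a)) + 2)))) (nx S (q a) + 2)))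
        with hM
      have hle : J2 f en Ψ K1 ≤ J2 f en Ψ (K1 + M + nx S (q a) + 1) := hJmono (by omega)
      exact ⟨K1 + M + nx S (q a) + 1, by omega, by omega, by omega, by omega⟩
    have hmem := Nat.sInf_mem hne
    have hth := (hq a).2.2
    obtain ⟨g1, g2, g3, g4⟩ := hmem
    have hle : J2 f en Ψ (th2 S f be en Ψ ψ xx xi (q a)) ≤ J2 f en Ψ (k a) := hJmono hth
    exact ⟨lt_of_lt_of_le g1 hth, lt_of_lt_of_le g2 hle, lt_of_lt_of_le g3 hle,
      lt_of_lt_of_le g4 hth⟩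
  -- the bound
  obtain ⟨K2, hK2⟩ := hJunb m2
  refine ⟨nx S (q (m1 + K2)) + 2, fun n hn => ?_⟩
  by_contra hcon
  push Not at hcon
  obtain ⟨hy, hy'⟩ := hcon
  -- the maximal `a`
  obtain ⟨a, ha1, ha2, ha3⟩ : ∃ a, m1 + K2 ≤ a ∧ nx S (q a) + 2 ≤ n ∧
      n < nx S (q (a + 1)) + 2 := by
    by_contra hno
    push Not at hno
    have : ∀ d, nx S (q (m1 + K2 + d)) + 2 ≤ n := by
      intro d
      induction d with
      | zero => exact hn
      | succ d ih => exact hno (m1 + K2 + d) (by omega) ih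
    have h1 := this n
    have h2 := (hb (m1 + K2 + n)).2
    have h3 := hqa (m1 + K2 + n)
    omega
  obtain ⟨hk1, hk2, hk3, hk4⟩ := hk a
  obtain ⟨hbS, hbq⟩ := hb a
  have hkv : k a ≤ vv (nx S (q a)) := hS a _ hbS hbq hk1
  rcases le_or_gt n (max (be (Nat.pair (ψ (nx S (q a))) (xi (ψ (nx S (q a)) + 2))))
      (nx S (q a) + 2)) with hc | hc
  · -- case 1
    have h1 := hvv n (be (Nat.pair (nx S (q a)) (y' n))) (nx S (q a)) ha2 le_rfl
    have h2 : y' n ≤ mx f (max (be (Nat.pair (ψ (nx S (q a))) (xi (ψ (nx S (q a)) + 2))))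
        (nx S (q a) + 2)) := hy'.trans (ari2_le_mx f hc)
    have h3 := ari2_le_mx (fun k => en (Nat.pair (xx (be (Nat.pair (nx S (q a)) k)))
      (Nat.pair k (nx S (q a))))) h2
    omega
  · rcases le_or_gt n (J2 f en Ψ (k a)) with hd | hd
    · -- case 2
      have h1 : vv (nx S (q a)) ≤ Ψ (Nat.pair (nx S (q a)) (vi (ψ (nx S (q a))))) := by
        refine hm1 _ ?_
        have := hqa a
        omega
      have h2 := hvi n (ψ (nx S (q a))) ((le_max_left _ _).trans hc.le)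
      have h3 := hΨ (nx S (q a)) _ _ h2
      have h4 := hJ (k a) (by omega) n hd (xi (ψ (nx S (q a)) + 2)) hk2.le (ψ (nx S (q a))) hk3.le
        (nx S (q a)) (by omega) (y n) hy
      omega
    · -- case 3
      have hJpos : 0 < J2 f en Ψ (k a) := by omega
      have hm : m2 ≤ J2 f en Ψ (k a) := by
        have h1 := hqa a
        have h2 : J2 f en Ψ K2 ≤ J2 f en Ψ (k a) := hJmono (by omega)
        omega
      have hw : y n ≤ om2 S f (q (a + 1)) := hy.trans (ari2_le_mx f (by omega))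
      have e1 := (hsl n (J2 f en Ψ (k a) - 1) (by omega)).2
      have e2 := (hsl n (J2 f en Ψ (k a)) (by omega)).1
      rw [show J2 f en Ψ (k a) - 1 + 1 = J2 f en Ψ (k a) by omega] at e1
      have e3 := hm2 a hm (y n) hw e1
      omega

end Pool.Agent.Lib.MP_6d445e_gt.H75
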